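import Pool.Agent.R111.PG.Diff

/-!
# Difference sums over arbitrary sets and all their dense subsets, for almost all characters

For every `δ > 0` there are `c, τ > 0` such that for every large prime `p` and EVERY set `A` of
residues with more than `p^δ` elements the power saving of Q1 holds simultaneously for all subsets
`D` of `A` with at least `|A|^(1-τ)` elements, for all nonprincipal characters modulo `p` with at
most `p^(1-c) / |A|` exceptions. (The second moment over the characters gives at most
`p^(1+ε) / |A|` exceptions. The starting results on all characters are about sets of bounded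
doubling or about averages over the images of `A` under the maps `1/(x+t)` or projections.)

The fourth power of the norm of the matrix `χ (a - b)` is at most the sum of `χ` over the
cross-ratios of the elements of `A`. If there are many exceptional characters, then the large
spectrum of their sum gives a set with about `|A|` elements that is nearly invariant under many
dilations about two different points, and hence under many translations. This is impossible by
the expansion in the affine group (starting files). The same theorem gives a result on the twin
problem MP_f6e9a2_nt.
-/

namespace Pool.Agent.Results.MP_cb27ba_nt.AlmostAllCharacters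

theorem result (δ : ℝ) (hδ : 0 < δ) : ∃ c : ℝ, 0 < c ∧ ∃ τ : ℝ, 0 < τ ∧ ∃ P : ℕ,
    ∀ p : ℕ, p.Prime → P ≤ p → ∀ A : Finset (ZMod p), (p : ℝ) ^ δ < A.card →
    (({χ : DirichletCharacter ℂ p | χ ≠ 1 ∧ ∃ D ⊆ A, (A.card : ℝ) ^ (1 - τ) ≤ D.card ∧
      (D.card : ℝ) ^ (2 - τ) ≤ ‖∑ a ∈ D, ∑ b ∈ D, χ (a - b)‖}.ncard : ℕ) : ℝ) ≤
        (p : ℝ) ^ (1 - c) / A.card :=
  Pool.Agent.R111.PG.few_diff δ hδ

end Pool.Agent.Results.MP_cb27ba_nt.AlmostAllCharacters
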