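import Pool.Agent.R345.SS10

set_option autoImplicit false

/-!
# The initial segments below `p` of an ARBITRARY set of integers, for almost all primes `p`

Let `𝒜` be any set of nonnegative integers (no condition on its structure or energy) and let `𝒜(p)` be the set of its
elements below the prime `p`, regarded as a set of residues modulo `p`. The bound of the question holds for the
quadratic character and the sets `𝒜(p)`, and at the same time for all large subsets of `𝒜(p)`: for every `δ > 0`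
there is `τ > 0` such that for all but at most `Q ^ (1 - τ)` primes `p ≤ Q` with `|𝒜(p)| ≥ p ^ δ`, all the subsets `A` of
`𝒜(p)` with at least `|𝒜(p)| ^ (1 - τ)` elements satisfy `|∑_{a, b ∈ A} (a - b | p)| < |A| ^ (2 - τ)`. The exceptional set
is this small uniformly in `𝒜`.
-/

namespace Pool.Agent.Results.MP_cb27ba_nt.InitialSegments

open Finset

open scoped Classical in
/-- the elements of `𝒜` below `p` -/
noncomputable def seg (𝒜 : Set ℕ) (p : ℕ) : Finset ℕ := (range p).filter (fun n => n ∈ 𝒜)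

/-- the sum of the Legendre symbols of the differences -/
noncomputable def S (p : ℕ) (A : Finset ℕ) : ℝ := ∑ a ∈ A, ∑ b ∈ A, (jacobiSym ((a : ℤ) - b) p : ℝ)

/-- powers of the logarithm -/
lemma log_small (M : ℕ) (c δ : ℝ) (hδ : 0 < δ) : ∃ N₀ : ℕ, ∀ N : ℕ, N₀ ≤ N → c * Real.log N ^ M ≤ (N : ℝ) ^ δ := by
  have h1 := (isLittleO_log_rpow_rpow_atTop (M : ℝ) hδ).def (show (0 : ℝ) < 1 / (|c| + 1) by positivity)
  obtain ⟨x0, hx0⟩ := Filter.eventually_atTop.1 (h1.and (Filter.eventually_ge_atTop (1 : ℝ)))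
  refine ⟨⌈x0⌉₊, fun N hN => ?_⟩
  obtain ⟨h2, h3⟩ := hx0 N ((Nat.le_ceil x0).trans (by exact_mod_cast hN))
  have hl := Real.log_nonneg h3
  rw [Real.norm_of_nonneg (by positivity), Real.norm_of_nonneg (by positivity), Real.rpow_natCast] at h2
  have h4 : c ≤ |c| + 1 := by linarith [le_abs_self c]
  calc c * Real.log N ^ M ≤ (|c| + 1) * Real.log N ^ M := mul_le_mul_of_nonneg_right h4 (by positivity)
    _ ≤ (|c| + 1) * (1 / (|c| + 1) * (N : ℝ) ^ δ) := mul_le_mul_of_nonneg_left h2 (by positivity)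
    _ = _ := by field_simp

lemma mem_seg (𝒜 : Set ℕ) (p n : ℕ) : n ∈ seg 𝒜 p ↔ n < p ∧ n ∈ 𝒜 := by
  classical
  unfold seg
  rw [mem_filter, mem_range]

lemma seg_card (𝒜 : Set ℕ) (p : ℕ) : (seg 𝒜 p).card ≤ p := by
  classical
  unfold seg
  exact (card_filter_le _ _).trans (card_range p).le

lemma seg_mono (𝒜 : Set ℕ) {p q : ℕ} (h : p ≤ q) : seg 𝒜 p ⊆ seg 𝒜 q := by
  intro n hn
  rw [mem_seg] at hn ⊢
  exact ⟨by omega, hn.2⟩

lemma up_inj : Function.Injective (fun n : ℕ => (n : ℤ)) := Nat.cast_injective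

lemma um_inj : Function.Injective (fun n : ℕ => -(n : ℤ)) := fun _ _ h => Nat.cast_injective (neg_injective h)

/-- `A` as a set of integers -/
def up (A : Finset ℕ) : Finset ℤ := A.map ⟨fun n : ℕ => (n : ℤ), up_inj⟩

/-- the set `- A` -/
def um (A : Finset ℕ) : Finset ℤ := A.map ⟨fun n : ℕ => -(n : ℤ), um_inj⟩

lemma sum_up {M : Type*} [AddCommMonoid M] (A : Finset ℕ) (f : ℤ → M) : ∑ a ∈ up A, f a = ∑ a ∈ A, f (a : ℤ) :=
  sum_map _ _ _

lemma sum_um {M : Type*} [AddCommMonoid M] (A : Finset ℕ) (f : ℤ → M) : ∑ a ∈ um A, f a = ∑ a ∈ A, f (-(a : ℤ)) :=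
  sum_map _ _ _

lemma mem_up {A : Finset ℕ} {a : ℤ} : a ∈ up A ↔ ∃ n ∈ A, (n : ℤ) = a := mem_map

lemma mem_um {A : Finset ℕ} {a : ℤ} : a ∈ um A ↔ ∃ n ∈ A, -(n : ℤ) = a := mem_map

lemma card_up (A : Finset ℕ) : (up A).card = A.card := card_map _

lemma card_um (A : Finset ℕ) : (um A).card = A.card := card_map _

open Pool.Agent.R345.SS in
/-- the bound modulo a good prime -/
lemma good (Q : ℕ) (κ : ℝ) (B A : Finset ℕ) (hκ : 0 ≤ κ) (p : ℕ) (hp : p.Prime) (hp2 : p ≠ 2) (hpQ : p ≤ Q)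
    (hg : p ∉ badTr Q (κ ^ 4) (up B) (um B)) (hAB : A ⊆ B) : |S p A| ≤ κ * B.card * A.card := by
  classical
  have h := good_forms Q κ (up B) (um B) hκ p hp hp2 hpQ hg (fun a => if a.natAbs ∈ A then 1 else 0)
    (fun b => if b.natAbs ∈ A then 1 else 0)
  have h1 : ∑ n ∈ B, ‖(if n ∈ A then (1 : ℂ) else 0)‖ ^ 2 = A.card := by
    have h4 : ∀ a ∈ B, ‖(if a ∈ A then (1 : ℂ) else 0)‖ ^ 2 = if a ∈ A then (1 : ℝ) else 0 := by
      intro a _
      split_ifs <;> simp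
    rw [sum_congr rfl h4, sum_boole, filter_mem_eq_inter, inter_eq_right.2 hAB]
  rw [sum_up, sum_up, sum_um, card_up, card_um] at h
  simp only [sum_um, Int.natAbs_natCast, Int.natAbs_neg] at h
  rw [h1] at h
  have h2 : ∑ a ∈ B, ∑ b ∈ B, (if a ∈ A then (1 : ℂ) else 0) * (if b ∈ A then (1 : ℂ) else 0) *
      (J ((a : ℤ) + -(b : ℤ)) p : ℂ) = ((S p A : ℝ) : ℂ) := by
    have h6 : ∀ a : ℕ, ∑ b ∈ B, (if a ∈ A then (1 : ℂ) else 0) * (if b ∈ A then (1 : ℂ) else 0) * (J ((a : ℤ) + -(b : ℤ)) p : ℂ) =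
        if a ∈ A then ∑ b ∈ A, (J ((a : ℤ) + -(b : ℤ)) p : ℂ) else 0 := by
      intro a
      split_ifs with ha
      · have h7 : ∀ b : ℕ, (1 : ℂ) * (if b ∈ A then (1 : ℂ) else 0) * (J ((a : ℤ) + -(b : ℤ)) p : ℂ) =
            if b ∈ A then (J ((a : ℤ) + -(b : ℤ)) p : ℂ) else 0 := by
          intro b
          split_ifs <;> simp
        rw [sum_congr rfl fun b _ => h7 b, ← sum_filter, filter_mem_eq_inter, inter_eq_right.2 hAB]
      · simp
    rw [sum_congr rfl fun a _ => h6 a, ← sum_filter, filter_mem_eq_inter, inter_eq_right.2 hAB]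
    unfold S J
    push_cast
    simp only [sub_eq_add_neg]
  rw [h2, Complex.norm_real, Real.norm_eq_abs] at h
  refine h.trans (le_of_eq ?_)
  rw [Real.sqrt_mul_self (Nat.cast_nonneg _), Real.mul_self_sqrt (Nat.cast_nonneg _)]

open Pool.Agent.R345.SS in
/-- **Theorem.** For every `δ > 0` there are `τ > 0` and `Q₀` such that for all `Q ≥ Q₀` and ALL sets `𝒜` of nonnegative
integers there are at most `Q ^ (1 - τ)` primes `p ≤ Q` for which `𝒜(p) = 𝒜 ∩ [0, p)` has at least `p ^ δ` elements and some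
subset `A` of `𝒜(p)` with at least `|𝒜(p)| ^ (1 - τ)` elements satisfies `|∑_{a, b ∈ A} (a - b | p)| ≥ |A| ^ (2 - τ)`. -/
theorem result : ∀ δ : ℝ, 0 < δ → ∃ τ : ℝ, 0 < τ ∧ ∃ Q₀ : ℕ, ∀ Q : ℕ, Q₀ ≤ Q → ∀ 𝒜 : Set ℕ,
    ((({p : ℕ | p.Prime ∧ p ≤ Q ∧ (p : ℝ) ^ δ ≤ (seg 𝒜 p).card ∧ ∃ A ⊆ seg 𝒜 p,
      ((seg 𝒜 p).card : ℝ) ^ (1 - τ) ≤ A.card ∧ (A.card : ℝ) ^ (2 - τ) ≤ |S p A|}).ncard : ℕ) : ℝ) ≤ (Q : ℝ) ^ (1 - τ) := by
  classical
  intro δ' hδ'
  obtain ⟨δ, hδd⟩ : ∃ δ : ℝ, δ = min δ' 1 := ⟨_, rfl⟩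
  have hδ : 0 < δ := by rw [hδd]; exact lt_min hδ' one_pos
  have hδ1 : δ ≤ 1 := by rw [hδd]; exact min_le_right _ _
  have hδδ' : δ ≤ δ' := by rw [hδd]; exact min_le_left _ _
  obtain ⟨C, hC, hcount⟩ := bad_count 1
  obtain ⟨c, hc⟩ : ∃ c : ℝ, c = 1 / 24 := ⟨_, rfl⟩
  have hcc : (1 / (2 * (10 * ((1 : ℕ) : ℝ) + 2)) : ℝ) = c := by rw [hc]; norm_num
  rw [hcc] at hcount
  have hc0 : 0 < c := by rw [hc]; norm_num
  obtain ⟨d, hd⟩ : ∃ d : ℝ, d = c * δ / 32 := ⟨_, rfl⟩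
  have hd0 : 0 < d := by rw [hd]; positivity
  have hd1 : d ≤ 1 / 32 := by
    rw [hd, hc]
    linarith
  obtain ⟨N1, hN1⟩ := log_small 2 (6 * C) (4 * d) (by positivity)
  obtain ⟨N2, hN2⟩ := log_small 0 3 (d / 4) (by positivity)
  refine ⟨d / 4, by positivity, N1 + N2 + 16, ?_⟩
  intro Q hQ 𝒜
  have hQ16 : (16 : ℝ) ≤ Q := by exact_mod_cast (by omega : 16 ≤ Q)
  have hQ0 : (0 : ℝ) < Q := by linarith
  have e1 := hN1 Q (by omega)
  have e2 := hN2 Q (by omega)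
  rw [pow_zero, mul_one] at e2
  set L : ℝ := Real.log Q with hL
  have hL1 : 1 ≤ L := by
    rw [hL, Real.le_log_iff_exp_le hQ0]
    linarith [Real.exp_one_lt_d9]
  set κ : ℝ := (Q : ℝ) ^ (-d) with hκ
  have hκ0 : 0 < κ := Real.rpow_pos_of_pos hQ0 _
  have hκ1 : κ ≤ 1 := Real.rpow_le_one_of_one_le_of_nonpos (by linarith) (by linarith)
  -- the chain
  set t : ℕ → ℕ := fun j => Nat.findGreatest (fun t => (seg 𝒜 t).card < 2 ^ (j + 1)) Q with ht
  set Bj : ℕ → Finset ℕ := fun j => seg 𝒜 (t j) with hBj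
  set E : Finset ℕ := (range (Nat.log 2 Q + 1)).biUnion (fun j =>
    if (Q : ℝ) ^ (δ / 2) ≤ (Bj j).card then badTr Q (κ ^ 4) (up (Bj j)) (um (Bj j)) else ∅) with hE
  -- the number of exceptions
  have hBQ : ∀ j, ∀ a ∈ Bj j, a ≤ Q := by
    intro j a ha
    have ha' : a < t j := ((mem_seg 𝒜 (t j) a).1 ha).1
    have : t j ≤ Q := Nat.findGreatest_le _
    omega
  have hEj : ∀ j, (((if (Q : ℝ) ^ (δ / 2) ≤ (Bj j).card then badTr Q (κ ^ 4) (up (Bj j)) (um (Bj j)) else ∅ : Finset ℕ).card : ℕ) : ℝ) ≤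
      C * L * (Q : ℝ) ^ (1 - 8 * d) := by
    intro j
    split_ifs with hj
    · have hm1 : (1 : ℝ) ≤ (Bj j).card := (Real.one_le_rpow (by linarith) (by positivity)).trans hj
      have h1 := hcount Q (up (Bj j)) (um (Bj j)) (Bj j).card (κ ^ 4) (by omega) (by
        intro a ha
        obtain ⟨n, hn, rfl⟩ := mem_up.1 ha
        have := hBQ j n hn
        rw [mem_Icc, pow_one]
        constructor <;> omega) (by
        intro a ha
        obtain ⟨n, hn, rfl⟩ := mem_um.1 ha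
        have := hBQ j n hn
        rw [mem_Icc, pow_one]
        constructor <;> omega) (by exact_mod_cast hm1) (card_up _).ge (card_um _).ge
        (by positivity) (pow_le_one₀ hκ0.le hκ1)
      set N : ℝ := ((badTr Q (κ ^ 4) (up (Bj j)) (um (Bj j))).card : ℝ) with hN
      have g1 : (κ ^ 4) ^ 2 = (Q : ℝ) ^ (-(8 * d)) := by
        rw [← pow_mul, hκ, ← Real.rpow_natCast, ← Real.rpow_mul hQ0.le]
        congr 1
        push_cast
        ring
      have g2 : (L ^ 4 / ((Bj j).card : ℝ)) ^ c ≤ L * (Q : ℝ) ^ (-(16 * d)) := by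
        have h2 : L ^ 4 / ((Bj j).card : ℝ) ≤ L ^ 4 * (Q : ℝ) ^ (-(δ / 2)) := by
          rw [Real.rpow_neg hQ0.le, ← div_eq_mul_inv]
          exact div_le_div_of_nonneg_left (by positivity) (by positivity) hj
        refine (Real.rpow_le_rpow (by positivity) h2 hc0.le).trans ?_
        rw [Real.mul_rpow (by positivity) (by positivity), ← Real.rpow_mul hQ0.le]
        have h3 : (L ^ 4) ^ c ≤ L := by
          rw [← Real.rpow_natCast, ← Real.rpow_mul (by linarith)]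
          calc L ^ (((4 : ℕ) : ℝ) * c) ≤ L ^ (1 : ℝ) := by
                apply Real.rpow_le_rpow_of_exponent_le hL1
                rw [hc]
                norm_num
            _ = L := Real.rpow_one _
        have h4 : -(δ / 2) * c = -(16 * d) := by rw [hd]; ring
        rw [h4]
        exact mul_le_mul_of_nonneg_right h3 (by positivity)
      rw [g1] at h1
      have g3 : N = (Q : ℝ) ^ (8 * d) * ((Q : ℝ) ^ (-(8 * d)) * N) := by
        rw [← mul_assoc, ← Real.rpow_add hQ0]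
        simp
      rw [g3]
      calc (Q : ℝ) ^ (8 * d) * ((Q : ℝ) ^ (-(8 * d)) * N) ≤ (Q : ℝ) ^ (8 * d) * (C * Q * (L ^ 4 / ((Bj j).card : ℝ)) ^ c) :=
            mul_le_mul_of_nonneg_left h1 (by positivity)
        _ ≤ (Q : ℝ) ^ (8 * d) * (C * Q * (L * (Q : ℝ) ^ (-(16 * d)))) := by gcongr
        _ = C * L * ((Q : ℝ) ^ (8 * d) * (Q : ℝ) ^ (1 : ℝ) * (Q : ℝ) ^ (-(16 * d))) := by rw [Real.rpow_one]; ring
        _ = _ := by
            rw [← Real.rpow_add hQ0, ← Real.rpow_add hQ0]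
            congr 2
            ring
    · simp only [card_empty, Nat.cast_zero]
      positivity
  have hEc : (E.card : ℝ) ≤ (1 / 2) * (Q : ℝ) ^ (1 - d / 4) := by
    have h1 : (E.card : ℝ) ≤ ∑ j ∈ range (Nat.log 2 Q + 1), C * L * (Q : ℝ) ^ (1 - 8 * d) := by
      refine le_trans ?_ (sum_le_sum fun j _ => hEj j)
      rw [hE]
      exact_mod_cast card_biUnion_le
    rw [sum_const, card_range, nsmul_eq_mul] at h1
    have h2 : ((Nat.log 2 Q + 1 : ℕ) : ℝ) ≤ 3 * L := by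
      have h3 : 2 ^ Nat.log 2 Q ≤ Q := Nat.pow_log_le_self 2 (by omega)
      have h4 : (2 : ℝ) ^ Nat.log 2 Q ≤ Q := by exact_mod_cast h3
      have h5 := Real.log_le_log (by positivity) h4
      rw [Real.log_pow] at h5
      have h6 := Real.log_two_gt_d9
      have h7 : (0 : ℝ) ≤ (Nat.log 2 Q : ℝ) := Nat.cast_nonneg _
      push_cast
      nlinarith
    refine h1.trans ?_
    calc ((Nat.log 2 Q + 1 : ℕ) : ℝ) * (C * L * (Q : ℝ) ^ (1 - 8 * d)) ≤ (3 * L) * (C * L * (Q : ℝ) ^ (1 - 8 * d)) :=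
          mul_le_mul_of_nonneg_right h2 (by positivity)
      _ = (1 / 2) * (6 * C * L ^ 2) * (Q : ℝ) ^ (1 - 8 * d) := by ring
      _ ≤ (1 / 2) * (Q : ℝ) ^ (4 * d) * (Q : ℝ) ^ (1 - 8 * d) := by gcongr
      _ = (1 / 2) * (Q : ℝ) ^ (1 - 4 * d) := by
          rw [mul_assoc, ← Real.rpow_add hQ0]
          congr 2
          ring
      _ ≤ (1 / 2) * (Q : ℝ) ^ (1 - d / 4) := by
          refine mul_le_mul_of_nonneg_left ?_ (by norm_num)
          exact Real.rpow_le_rpow_of_exponent_le (by linarith) (by linarith)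
  -- the small primes
  set R : ℕ := ⌊√(Q : ℝ)⌋₊ with hR
  have hRc : (((range (R + 1)).card : ℕ) : ℝ) ≤ (1 / 2) * (Q : ℝ) ^ (1 - d / 4) := by
    rw [card_range]
    have h1 : (R : ℝ) ≤ √(Q : ℝ) := Nat.floor_le (Real.sqrt_nonneg _)
    have h2 : (4 : ℝ) ≤ √(Q : ℝ) := by
      apply Real.le_sqrt_of_sq_le
      linarith
    have h3 : √(Q : ℝ) * (5 / 4) ≤ (1 / 2) * (Q : ℝ) ^ (1 - d / 4) := by
      have h4 : (3 : ℝ) * (Q : ℝ) ^ (1 / 2 : ℝ) ≤ (Q : ℝ) ^ (1 - d / 4) := by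
        calc (3 : ℝ) * (Q : ℝ) ^ (1 / 2 : ℝ) ≤ (Q : ℝ) ^ (d / 4) * (Q : ℝ) ^ (1 / 2 : ℝ) :=
              mul_le_mul_of_nonneg_right e2 (by positivity)
          _ = (Q : ℝ) ^ (d / 4 + 1 / 2) := by rw [← Real.rpow_add hQ0]
          _ ≤ _ := Real.rpow_le_rpow_of_exponent_le (by linarith) (by linarith)
      rw [← Real.sqrt_eq_rpow] at h4
      linarith
    push_cast
    linarith
  -- the cover
  have hcov : {p : ℕ | p.Prime ∧ p ≤ Q ∧ (p : ℝ) ^ δ' ≤ (seg 𝒜 p).card ∧ ∃ A ⊆ seg 𝒜 p,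
      ((seg 𝒜 p).card : ℝ) ^ (1 - d / 4) ≤ A.card ∧ (A.card : ℝ) ^ (2 - d / 4) ≤ |S p A|} ⊆
      ((range (R + 1) ∪ E : Finset ℕ) : Set ℕ) := by
    rintro p ⟨hp, hpQ, hseg, A, hA, hA1, hA2⟩
    rw [mem_coe, mem_union, mem_range]
    by_cases hpR : p < R + 1
    · left; exact hpR
    right
    push Not at hpR
    have hpr : √(Q : ℝ) ≤ p := by
      have h1 : √(Q : ℝ) < R + 1 := Nat.lt_floor_add_one _
      have h2 : ((R + 1 : ℕ) : ℝ) ≤ p := by exact_mod_cast hpR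
      push_cast at h2
      linarith
    have hs4 : (4 : ℝ) ≤ √(Q : ℝ) := by
      apply Real.le_sqrt_of_sq_le
      linarith
    have hp1 : (1 : ℝ) ≤ p := by linarith
    have hp2 : p ≠ 2 := by
      intro h2
      rw [h2] at hpr
      norm_num at hpr
      linarith
    set P : ℕ := (seg 𝒜 p).card with hP
    have hPδ : (Q : ℝ) ^ (δ / 2) ≤ P := by
      have h1 : (p : ℝ) ^ δ ≤ (p : ℝ) ^ δ' := Real.rpow_le_rpow_of_exponent_le hp1 hδδ'
      have h2 : √(Q : ℝ) ^ δ ≤ (p : ℝ) ^ δ := Real.rpow_le_rpow (Real.sqrt_nonneg _) hpr hδ.le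
      have h3 : √(Q : ℝ) ^ δ = (Q : ℝ) ^ (δ / 2) := by
        rw [Real.sqrt_eq_rpow, ← Real.rpow_mul hQ0.le]
        congr 1
        ring
      rw [← h3]
      exact h2.trans (h1.trans hseg)
    have hPpos : 0 < P := by
      have h1 : (1 : ℝ) ≤ (Q : ℝ) ^ (δ / 2) := Real.one_le_rpow (by linarith) (by positivity)
      have h2 : (1 : ℝ) ≤ P := h1.trans hPδ
      exact_mod_cast h2
    have hPp : P ≤ p := by
      rw [hP]
      exact seg_card 𝒜 p
    set j : ℕ := Nat.log 2 P with hj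
    have hj1 : 2 ^ j ≤ P := Nat.pow_log_le_self 2 hPpos.ne'
    have hj2 : P < 2 ^ (j + 1) := Nat.lt_pow_succ_log_self (by norm_num) _
    have htj : p ≤ t j := Nat.le_findGreatest hpQ hj2
    have hBjc : (Bj j).card < 2 ^ (j + 1) := by
      have h0 : (seg 𝒜 0).card < 2 ^ (j + 1) := by
        have h1 := seg_card 𝒜 0
        have h2 : 0 < 2 ^ (j + 1) := by positivity
        omega
      exact Nat.findGreatest_spec (P := fun t => (seg 𝒜 t).card < 2 ^ (j + 1)) (m := 0) (Nat.zero_le _) h0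
    have hsub : seg 𝒜 p ⊆ Bj j := seg_mono 𝒜 htj
    have hPB : P ≤ (Bj j).card := card_le_card hsub
    have hB2 : ((Bj j).card : ℝ) ≤ 2 * P := by
      have h1 : (Bj j).card ≤ 2 * P := by
        rw [pow_succ] at hBjc
        omega
      exact_mod_cast h1
    by_contra hpE
    have hcond : (Q : ℝ) ^ (δ / 2) ≤ (Bj j).card := hPδ.trans (by exact_mod_cast hPB)
    have hjr : j ∈ range (Nat.log 2 Q + 1) := by
      rw [mem_range]
      have : j ≤ Nat.log 2 Q := Nat.log_mono_right (hPp.trans hpQ)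
      omega
    have hgood : p ∉ badTr Q (κ ^ 4) (up (Bj j)) (um (Bj j)) := by
      intro hb
      apply hpE
      rw [hE, mem_biUnion]
      exact ⟨j, hjr, by rw [if_pos hcond]; exact hb⟩
    have hbound := good Q κ (Bj j) A hκ0.le p hp hp2 hpQ hgood (hA.trans hsub)
    have hPr : (1 : ℝ) ≤ P := by exact_mod_cast hPpos
    have hPQ : (P : ℝ) ≤ Q := by exact_mod_cast hPp.trans hpQ
    have hApos : (0 : ℝ) < A.card := lt_of_lt_of_le (Real.rpow_pos_of_pos (by linarith) _) hA1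
    have hAQ : (A.card : ℝ) ≤ Q := by
      refine le_trans ?_ hPQ
      exact_mod_cast card_le_card hA
    -- the contradiction
    have h1 : (A.card : ℝ) ^ (2 - d / 4) = (A.card : ℝ) * ((A.card : ℝ) * (A.card : ℝ) ^ (-(d / 4))) := by
      have e : (2 - d / 4 : ℝ) = 1 + (1 + -(d / 4)) := by ring
      rw [e, Real.rpow_add hApos, Real.rpow_add hApos, Real.rpow_one]
    have h2 : (A.card : ℝ) * (A.card : ℝ) ^ (-(d / 4)) ≤ κ * (Bj j).card := by
      have h3 : (A.card : ℝ) * ((A.card : ℝ) * (A.card : ℝ) ^ (-(d / 4))) ≤ (A.card : ℝ) * (κ * (Bj j).card) := by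
        rw [← h1]
        refine hA2.trans (hbound.trans (le_of_eq ?_))
        ring
      exact le_of_mul_le_mul_left h3 hApos
    have h4 : (P : ℝ) * (Q : ℝ) ^ (-(d / 4)) ≤ A.card := by
      refine le_trans ?_ hA1
      have e : (1 - d / 4 : ℝ) = 1 + -(d / 4) := by ring
      rw [e, Real.rpow_add (by linarith), Real.rpow_one]
      refine mul_le_mul_of_nonneg_left ?_ (by linarith)
      exact Real.rpow_le_rpow_of_nonpos (by linarith) hPQ (by linarith)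
    have h5 : (Q : ℝ) ^ (-(d / 4)) ≤ (A.card : ℝ) ^ (-(d / 4)) :=
      Real.rpow_le_rpow_of_nonpos hApos hAQ (by linarith)
    have h6 : (P : ℝ) * (Q : ℝ) ^ (-(d / 4)) * (Q : ℝ) ^ (-(d / 4)) ≤ κ * (2 * P) := by
      calc (P : ℝ) * (Q : ℝ) ^ (-(d / 4)) * (Q : ℝ) ^ (-(d / 4)) ≤ A.card * (A.card : ℝ) ^ (-(d / 4)) :=
            mul_le_mul h4 h5 (by positivity) hApos.le
        _ ≤ κ * (Bj j).card := h2
        _ ≤ κ * (2 * P) := mul_le_mul_of_nonneg_left hB2 hκ0.le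
    have h7 : (Q : ℝ) ^ (-(d / 2)) ≤ 2 * (Q : ℝ) ^ (-d) := by
      have e : (Q : ℝ) ^ (-(d / 4)) * (Q : ℝ) ^ (-(d / 4)) = (Q : ℝ) ^ (-(d / 2)) := by
        rw [← Real.rpow_add hQ0]
        congr 1
        ring
      have h8 : (P : ℝ) * (Q : ℝ) ^ (-(d / 2)) ≤ P * (2 * κ) := by
        rw [← e]
        linarith
      have h9 := le_of_mul_le_mul_left h8 (by linarith : (0 : ℝ) < P)
      exact h9
    have h8 : (3 : ℝ) ≤ (Q : ℝ) ^ (d / 2) := by
      refine e2.trans (Real.rpow_le_rpow_of_exponent_le (by linarith) (by linarith))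
    have h9 : (Q : ℝ) ^ (-(d / 2)) = (Q : ℝ) ^ (d / 2) * (Q : ℝ) ^ (-d) := by
      rw [← Real.rpow_add hQ0]
      congr 1
      ring
    rw [h9] at h7
    have h10 := le_of_mul_le_mul_right h7 hκ0
    linarith
  have hfin := Set.ncard_le_ncard hcov (finite_toSet _)
  rw [Set.ncard_coe_finset] at hfin
  calc ((({p : ℕ | p.Prime ∧ p ≤ Q ∧ (p : ℝ) ^ δ' ≤ (seg 𝒜 p).card ∧ ∃ A ⊆ seg 𝒜 p,
      ((seg 𝒜 p).card : ℝ) ^ (1 - d / 4) ≤ A.card ∧ (A.card : ℝ) ^ (2 - d / 4) ≤ |S p A|}).ncard : ℕ) : ℝ)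
      ≤ ((range (R + 1) ∪ E).card : ℝ) := by exact_mod_cast hfin
    _ ≤ ((range (R + 1)).card : ℝ) + E.card := by exact_mod_cast card_union_le _ _
    _ ≤ (1 / 2) * (Q : ℝ) ^ (1 - d / 4) + (1 / 2) * (Q : ℝ) ^ (1 - d / 4) := add_le_add hRc hEc
    _ = _ := by ring

end Pool.Agent.Results.MP_cb27ba_nt.InitialSegments
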