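import Pool.Agent.R111.PG.TripleMain

/-!
# MP_cb27ba_nt (difference sets): all large subsets of the sets `X + tY + uW`

For every prime, every nonprincipal character `χ` and ALL sets `X`, `Y`, `W` of size at least `p^ε`,
every large subset `D` of `X + tY + uW` satisfies `|∑_{a,b ∈ D} χ(a-b)| < |D|^(2-τ)`, for all of the
`p (p - 1)` pairs `(t, u)`, `u ≠ 0`, with at most `p^(1-c)` exceptions.

The proof: `(x + ty + uw) - (x' + ty' + uw') = -x' + g(w)` with the affine map `g(w) = s + uw`,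
`s = x + t(y-y') - uw'`. By the theorem on almost all affine maps (`Pool.Agent.R111.PG.few_affine`,
see the twin problem MP_f6e9a2_nt) the matrix `χ(-x' + g(w))` on `X × W` has a small norm for all `g`
with at most `p^(1-c)` exceptions, and for fixed `x`, `y ≠ y'`, `w'` each `g` comes from one pair
`(t, u)`.
-/

namespace Pool.Agent.Results.MP_cb27ba_nt.SubsetsOfTripleSums

theorem result (ε : ℝ) (hε : 0 < ε) : ∃ c : ℝ, 0 < c ∧ ∃ τ : ℝ, 0 < τ ∧ ∃ P : ℕ,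
    ∀ p : ℕ, p.Prime → P ≤ p → ∀ χ : DirichletCharacter ℂ p, χ ≠ 1 →
    ∀ X Y W : Finset (ZMod p), (p : ℝ) ^ ε ≤ X.card → (p : ℝ) ^ ε ≤ Y.card →
      (p : ℝ) ^ ε ≤ W.card →
      (({g : ZMod p × ZMod p | g.2 ≠ 0 ∧
        ∃ D ⊆ (X ×ˢ Y ×ˢ W).image (fun v => v.1 + g.1 * v.2.1 + g.2 * v.2.2),
          ((X.card * Y.card * W.card : ℕ) : ℝ) ^ (1 - τ) ≤ D.card ∧
          (D.card : ℝ) ^ (2 - τ) ≤ ‖∑ a ∈ D, ∑ b ∈ D, χ (a - b)‖}.ncard : ℕ) : ℝ) ≤
        (p : ℝ) ^ (1 - c) :=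
  Pool.Agent.R111.PG.few_triple ε hε

end Pool.Agent.Results.MP_cb27ba_nt.SubsetsOfTripleSums
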