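import Pool.Agent.R535.PG.Main

set_option autoImplicit false

/-!
# Power saving over difference sets for all subsets of almost all sets

For every `δ > 0` there is `τ > 0` such that for every large prime `p`, every set `S` of residues
and every `n`, all but a proportion `exp (-p ^ τ)` of the `n`-element subsets of `S` have the
following hereditary property: ALL their subsets `A` with `|A| ≥ p ^ δ` and
`|A| ≥ n p ^ (1/2 + δ) / |S|` satisfy `|∑_{a, b ∈ A} χ (a - b)| < |A| ^ (2 - τ)` for ALL nonprincipal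
characters `χ` modulo `p`.

For `S` the whole field and `n ≤ p ^ (1/2)` the second condition is void, for `n = |S| = p` it is the
classical range.

Outline: a large sum over `A × (-A)` gives a large sum over `A × B₀` for some `B₀ ⊆ -A` with only
`m = p ^ (δ/2)` elements, so many elements of `A` belong to the set of all `x` with
`|∑_{b ∈ B₀} χ (x + b)| ≥ p ^ (-τ) m / 2`, which has at most `p ^ (1/2 + δ/4)` elements by Weil's
bound for high moments (starting files). For a random set this has probability at most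
`p ^ (-c p ^ (δ - τ))`, and there are at most `p ^ (m + 1)` pairs `(B₀, χ)`.
-/

namespace Pool.Agent.Results.MP_cb27ba_nt.SubsetsOfTypicalSets

open Finset

open Classical in
theorem result (δ : ℝ) (hδ : 0 < δ) : ∃ τ : ℝ, 0 < τ ∧ ∃ p₀ : ℕ, ∀ (p : ℕ) [Fact p.Prime],
    p₀ ≤ p → ∀ (S : Finset (ZMod p)) (n : ℕ), n ≤ S.card →
      (((S.powersetCard n).filter (fun X => ¬ ∀ A ⊆ X, (p : ℝ) ^ δ ≤ A.card →
          (n : ℝ) * (p : ℝ) ^ (1 / 2 + δ) ≤ (A.card : ℝ) * S.card →
          ∀ χ : DirichletCharacter ℂ p, χ ≠ 1 →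
            ‖∑ a ∈ A, ∑ b ∈ A, χ (a - b)‖ < (A.card : ℝ) ^ (2 - τ))).card : ℝ) ≤
        Real.exp (-(p : ℝ) ^ τ) * ((S.powersetCard n).card : ℝ) := by
  obtain ⟨η, hη, p₀, h⟩ := Pool.Agent.R535.PG.main δ hδ
  refine ⟨η / 2, by positivity, p₀, fun p _ hp S n hn => ?_⟩
  have hpp : p.Prime := Fact.out
  have hp0 : (0 : ℝ) < p := by exact_mod_cast hpp.pos
  have hp1 : (1 : ℝ) < p := by exact_mod_cast hpp.one_lt
  have hfin : Real.exp (-(p : ℝ) ^ η) * ((S.powersetCard n).card : ℝ) ≤
      Real.exp (-(p : ℝ) ^ (η / 2)) * ((S.powersetCard n).card : ℝ) := by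
    refine mul_le_mul_of_nonneg_right (Real.exp_le_exp.2 (neg_le_neg ?_)) (Nat.cast_nonneg _)
    exact Real.rpow_le_rpow_of_exponent_le hp1.le (by linarith)
  refine le_trans ?_ ((h p hp S n hn).trans hfin)
  refine Nat.cast_le.2 (card_le_card fun X hX => ?_)
  obtain ⟨h1, h2⟩ := mem_filter.1 hX
  refine mem_filter.2 ⟨h1, fun h3 => h2 fun A hA h4 h5 χ h6 => ?_⟩
  have hXn : X.card = n := (mem_powersetCard.1 h1).2
  have hneg : (A.image (fun a => -a)).card = A.card := card_image_of_injective _ neg_injective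
  have h7 := h3 A hA h4 (by rw [hXn]; exact h5) (A.image (fun a => -a)) (by rw [hneg]; exact h4)
    χ h6
  rw [hneg] at h7
  have h8 : ‖∑ a ∈ A, ∑ b ∈ A, χ (a - b)‖ ≤ (p : ℝ) ^ (-η) * ((A.card : ℝ) * A.card) := by
    refine (norm_sum_le _ _).trans (le_trans (le_of_eq ?_) h7)
    refine sum_congr rfl fun a _ => ?_
    rw [sum_image (fun x _ y _ hxy => neg_injective hxy)]
    simp only [sub_eq_add_neg]
  refine h8.trans_lt ?_
  have hA0 : (0 : ℝ) < A.card := lt_of_lt_of_le (by positivity) h4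
  have hAp : (A.card : ℝ) ≤ p := by
    have := card_le_univ A
    rw [ZMod.card] at this
    exact_mod_cast this
  have h9 : (A.card : ℝ) ^ (2 - η / 2) = (A.card : ℝ) * A.card * (A.card : ℝ) ^ (-(η / 2)) := by
    rw [sub_eq_add_neg, Real.rpow_add hA0, Real.rpow_two, sq]
  rw [h9]
  have h10 : (p : ℝ) ^ (-η) < (A.card : ℝ) ^ (-(η / 2)) := by
    calc (p : ℝ) ^ (-η) < (p : ℝ) ^ (-(η / 2)) :=
          Real.rpow_lt_rpow_of_exponent_lt hp1 (by linarith)
      _ ≤ (A.card : ℝ) ^ (-(η / 2)) :=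
          Real.rpow_le_rpow_of_nonpos hA0 hAp (by linarith)
  calc (p : ℝ) ^ (-η) * ((A.card : ℝ) * A.card) < (A.card : ℝ) ^ (-(η / 2)) * ((A.card : ℝ) * A.card) :=
        mul_lt_mul_of_pos_right h10 (by positivity)
    _ = _ := by ring

end Pool.Agent.Results.MP_cb27ba_nt.SubsetsOfTypicalSets
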